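import Pool.Agent.Helper57.T4.Win2
import Pool.Agent.Helper1.ET4.NearOneF
import Pool.Agent.Helper27.T4.Phase

/-!
# Final form of the near case with a step: part `VV2`
-/

set_option autoImplicit false

namespace Pool.Agent.Helper57.T4

open Finset Pool.Agent.Helper5.ET Pool.Agent.Helper27.T4 Pool.Agent.Helper66.T4
  Pool.Agent.Helper1.ET4

theorem Nj_mul_pow {y z : ℕ} (h : y ≤ z) (f : Fin 3) (h1 : ∀ t, y ≤ t → t < z → own t = f) :
    Nj z = pr f ^ (z - y) * Nj y := by
  induction z, h using Nat.le_induction with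
  | base => simp
  | succ z hz ih =>
    have h2 := ih fun t h3 h4 => h1 t h3 (by omega)
    rw [Nj_succ, h2, h1 z hz (Nat.lt_succ_self z), show z + 1 - y = (z - y) + 1 by omega, pow_succ]
    ring

theorem Nj_tau_succ (c : ℕ) : Nj (tau (c + 1)) = pr (own (tau c)) ^ gap (tau c) * Nj (tau c) := by
  have h := Nj_mul_pow (tau_strictMono.monotone (Nat.le_succ c)) (own (tau c))
    fun t h1 h2 => own_node c t h1 h2
  rw [h]
  congr 2
  rw [tau_succ]
  omega

theorem Nj_div_tau (c : ℕ) :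
    Nj (tau (c + 1)) / Nj (tau c) = pr (own (tau c)) ^ gap (tau c) := by
  rw [Nj_tau_succ]
  exact Nat.mul_div_cancel _ (Nj_pos _)

theorem Nj_div_tau_two (c : ℕ) :
    Nj (tau (c + 2)) / Nj (tau c) =
      pr (own (tau c)) ^ gap (tau c) * pr (own (tau (c + 1))) ^ gap (tau (c + 1)) := by
  rw [Nj_tau_succ (c + 1), Nj_tau_succ c, ← mul_assoc]
  rw [Nat.mul_div_cancel _ (Nj_pos _)]
  ring

theorem exp_thirteen_le : Real.exp 13 ≤ 1000003 := by
  have h1 : Real.exp 1 < 2.72 := by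
    have := Real.exp_one_lt_d9
    linarith
  have h2 : Real.exp 13 = Real.exp 1 ^ 13 := by
    rw [← Real.exp_nat_mul]
    norm_num
  rw [h2]
  have h3 : Real.exp 1 ^ 13 ≤ (2.72 : ℝ) ^ 13 := pow_le_pow_left₀ (Real.exp_pos _).le h1.le _
  refine h3.trans ?_
  norm_num

theorem exp_le_pow (n : ℕ) : Real.exp (13 * n) ≤ (1000003 : ℝ) ^ n := by
  have h : Real.exp (13 * n) = Real.exp 13 ^ n := by
    rw [← Real.exp_nat_mul]
    ring_nf
  rw [h]
  exact pow_le_pow_left₀ (Real.exp_pos _).le exp_thirteen_le n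

/-- the lower end of the window of the earlier state -/
theorem vlo_odd_ge (c : ℕ) :
    1000003 ^ gap (tau c) * pr (own (tau c)) ^ gap (tau c) ≤ vlo (2 * c + 1) := by
  unfold vlo
  rw [sl_odd, sk_odd, Nat.le_div_iff_mul_le (Nj_pos _)]
  have h1 := (gap_mono c).1
  have h2 : tau (c + 2) = tau (c + 1) + gap (tau (c + 1)) := rfl
  have h3 : tau (c + 1) ≤ tau (c + 2) + gap (tau (c + 1)) / 8 := by omega
  have h4 := Nj_ge_pow h3
  have h5 : gap (tau c) ≤ tau (c + 2) + gap (tau (c + 1)) / 8 - tau (c + 1) := by omega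
  calc 1000003 ^ gap (tau c) * pr (own (tau c)) ^ gap (tau c) * Nj (tau c)
      = 1000003 ^ gap (tau c) * Nj (tau (c + 1)) := by rw [Nj_tau_succ c]; ring
    _ ≤ 1000003 ^ (tau (c + 2) + gap (tau (c + 1)) / 8 - tau (c + 1)) * Nj (tau (c + 1)) :=
        Nat.mul_le_mul_right _ (Nat.pow_le_pow_right (by norm_num) h5)
    _ ≤ _ := h4

/-- the mean degree is tiny -/
theorem mu_small (c : ℕ) :
    2 * ((pr (own (tau c)) ^ (gap (tau c) / 2) : ℕ) : ℝ) / Real.sqrt (vlo (2 * c + 1)) ≤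
      2 * Real.exp (-(6 * (gap (tau c) : ℝ))) := by
  set g := gap (tau c) with hg
  set p := pr (own (tau c)) with hp
  obtain ⟨k, hk⟩ := eight_dvd_gap (tau c)
  have hk2 : g = 2 * (g / 2) := by omega
  have hp0 : (0 : ℝ) < p := by exact_mod_cast (pr_prime (own (tau c))).pos
  have h1 := vlo_odd_ge c
  have h2 : (Real.exp (6 * (g : ℝ)) * (p : ℝ) ^ (g / 2)) ^ 2 ≤ (vlo (2 * c + 1) : ℝ) := by
    have h3 : ((1000003 : ℝ)) ^ g * (p : ℝ) ^ g ≤ (vlo (2 * c + 1) : ℝ) := by exact_mod_cast h1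
    have h4 : Real.exp (6 * (g : ℝ)) ^ 2 ≤ (1000003 : ℝ) ^ g := by
      refine le_trans ?_ (exp_le_pow g)
      rw [← Real.exp_nat_mul]
      apply Real.exp_le_exp.2
      have : (0 : ℝ) ≤ g := Nat.cast_nonneg _
      push_cast
      linarith
    have h5 : ((p : ℝ) ^ (g / 2)) ^ 2 = (p : ℝ) ^ g := by
      rw [← pow_mul]
      congr 1
      omega
    rw [mul_pow, h5]
    exact (mul_le_mul_of_nonneg_right h4 (by positivity)).trans h3
  have h3 : Real.exp (6 * (g : ℝ)) * (p : ℝ) ^ (g / 2) ≤ Real.sqrt (vlo (2 * c + 1)) :=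
    Real.le_sqrt_of_sq_le h2
  have h4 : (0 : ℝ) < Real.exp (6 * (g : ℝ)) * (p : ℝ) ^ (g / 2) := by positivity
  have h5 : 0 < Real.sqrt (vlo (2 * c + 1)) := h4.trans_le h3
  rw [div_le_iff₀ h5, Real.exp_neg]
  have h6 : (0 : ℝ) < Real.exp (6 * (g : ℝ)) := Real.exp_pos _
  calc 2 * ((p ^ (g / 2) : ℕ) : ℝ)
      = 2 * (Real.exp (6 * (g : ℝ)))⁻¹ * (Real.exp (6 * (g : ℝ)) * (p : ℝ) ^ (g / 2)) := by
        push_cast
        field_simp
    _ ≤ 2 * (Real.exp (6 * (g : ℝ)))⁻¹ * Real.sqrt (vlo (2 * c + 1)) :=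
        mul_le_mul_of_nonneg_left h3 (by positivity)

/-- the number of contexts -/
theorem size_T (c : ℕ) :
    2 * (Nj (tau (c + 2)) / Nj (tau c)) +
      pr (own (tau c)) ^ gap (tau c) * vhi (2 * c + 2) + vhi (2 * c + 1) ≤
      1000037 ^ (6 * gap (tau (c + 1))) := by
  set g := gap (tau c) with hg
  set g2 := gap (tau (c + 1)) with hg2
  have h1 : g ≤ g2 := (gap_mono c).1
  have h0 : 1 ≤ g2 := gap_pos _
  have h2 : Nj (tau (c + 2)) / Nj (tau c) ≤ 1000037 ^ (5 * g2) := by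
    rw [Nj_div_tau_two]
    calc pr (own (tau c)) ^ g * pr (own (tau (c + 1))) ^ g2
        ≤ 1000037 ^ g * 1000037 ^ g2 :=
          Nat.mul_le_mul (Nat.pow_le_pow_left (pr_le _) _) (Nat.pow_le_pow_left (pr_le _) _)
      _ = 1000037 ^ (g + g2) := (pow_add _ _ _).symm
      _ ≤ 1000037 ^ (5 * g2) := Nat.pow_le_pow_right (by norm_num) (by omega)
  have h3 : pr (own (tau c)) ^ g * vhi (2 * c + 2) ≤ 1000037 ^ (5 * g2) := by
    have h4 := vhi_le_pow (2 * c + 2)
    rw [show 2 * c + 2 = 2 * (c + 1) by ring, sg_even] at h4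
    rw [show 2 * c + 2 = 2 * (c + 1) by ring]
    calc pr (own (tau c)) ^ g * vhi (2 * (c + 1))
        ≤ 1000037 ^ g * 1000037 ^ (4 * g2) :=
          Nat.mul_le_mul (Nat.pow_le_pow_left (pr_le _) _) h4
      _ = 1000037 ^ (g + 4 * g2) := (pow_add _ _ _).symm
      _ ≤ 1000037 ^ (5 * g2) := Nat.pow_le_pow_right (by norm_num) (by omega)
  have h4 : vhi (2 * c + 1) ≤ 1000037 ^ (5 * g2) := by
    have h5 := vhi_le_pow (2 * c + 1)
    rw [sg_odd] at h5
    exact h5.trans (Nat.pow_le_pow_right (by norm_num) (by omega))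
  have h5 : 4 * 1000037 ^ (5 * g2) ≤ 1000037 ^ (6 * g2) := by
    calc 4 * 1000037 ^ (5 * g2) ≤ 1000037 * 1000037 ^ (5 * g2) :=
          Nat.mul_le_mul_right _ (by norm_num)
      _ = 1000037 ^ (5 * g2 + 1) := by rw [pow_succ]; ring
      _ ≤ 1000037 ^ (6 * g2) := Nat.pow_le_pow_right (by norm_num) (by omega)
  omega

/-- VV2 -/
theorem VV2 : ∃ (C : ℝ) (c0 : ℕ), ∀ c ≥ c0, ∀ s s' : ℕ, s = 2 * c + 2 → s' = 2 * c + 1 →
    ∀ K : Finset Key, keysOf s ⊆ K → keysOf s' ⊆ K →
      PrLe K (fun w => ∃ α E κ n1 : ℕ, E.Coprime (pr (own (sl s'))) ∧ κ ≤ 1 ∧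
        C * ((sg s : ℝ) / Real.log (sg s)) <
        ((((range (pr (own (sl s')) ^ ((cnt (own (sl s')) (sl s) - cnt (own (sl s')) (sl s')) / 2))) ×ˢ
          ((VV s w) ×ˢ (VV s' w))).filter (fun t => (α + E * t.1) % (Nj (se s) / Nj (sl s')) +
            κ * (Nj (se s) / Nj (sl s')) + Nj (sl s) / Nj (sl s') * t.2.1 + t.2.2 = n1)).card : ℝ))
        (Real.exp (-(Real.sqrt (sl s)))) := by
  obtain ⟨C, hC, g0, htail⟩ := tail_num 16 260 (by norm_num) (by norm_num)
  refine ⟨201 * (C + 1), ⌈g0 ^ 2⌉₊, ?_⟩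
  intro c hc s s' hs hs' K hK hK'
  have hs2 : s = 2 * (c + 1) := by omega
  have esl : sl s = tau (c + 1) := by rw [hs2, sl_even]
  have esl' : sl s' = tau c := by rw [hs', sl_odd]
  have ese : se s = tau (c + 2) := by rw [hs2, se_even]
  have esg : sg s = gap (tau (c + 1)) := by rw [hs2, sg_even]
  have ecnt : cnt (own (sl s')) (sl s) - cnt (own (sl s')) (sl s') = gap (tau c) := by
    rw [esl, esl', cnt_node, if_pos rfl]
    omega
  set p := pr (own (tau c)) with hpdef
  set g' := gap (tau c) with hg'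
  set g := gap (tau (c + 1)) with hg
  have hgg := gap_ratio c
  have hp : p.Prime := pr_prime _
  obtain ⟨k, hk⟩ := eight_dvd_gap (tau c)
  have ha : 1 ≤ g' := gap_pos _
  set Q := Nj (tau (c + 2)) / Nj (tau c) with hQdef
  have hQ : p ^ g' ∣ Q := by
    rw [hQdef, Nj_div_tau_two]
    exact dvd_mul_right _ _
  have hQ0 : 0 < Q := Nat.div_pos (Nj_mono (tau_strictMono.monotone (by omega))) (Nj_pos _)
  have hI : (p ^ (g' / 2)) ^ 2 ≤ p ^ g' := by
    rw [← pow_mul]
    exact Nat.pow_le_pow_right hp.pos (by omega)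
  have h2 : p ^ g' ≤ vlo s' := by
    rw [hs']
    refine le_trans ?_ (vlo_odd_ge c)
    exact Nat.le_mul_of_pos_left _ (by positivity)
  -- the number of disjoint hits
  set t := ⌈C * ((g : ℝ) / Real.log g)⌉₊ with ht
  have hgR : (2 : ℝ) ^ 41 ≤ g := by
    have := sg_ge s
    rw [esg] at this
    exact_mod_cast this
  have hg0 : g0 ≤ (g : ℝ) := by
    have h3 : g0 ^ 2 ≤ (c : ℝ) := (Nat.le_ceil _).trans (by exact_mod_cast hc)
    have h4 : (c : ℝ) ≤ (sl s : ℝ) := by
      rw [esl]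
      have : c + 1 ≤ tau (c + 1) := tau_strictMono.id_le (c + 1)
      exact_mod_cast (by omega : c ≤ tau (c + 1))
    have h5 := sqrt_sl_le s
    rw [esg] at h5
    exact (Real.le_sqrt_of_sq_le (h3.trans h4)).trans h5
  have htl := htail g hg0 t (Nat.le_ceil _)
  have hlog : 0 < Real.log g := Real.log_pos (lt_of_lt_of_le (by norm_num) hgR)
  have hquot : 1 ≤ (g : ℝ) / Real.log g := by
    rw [le_div_iff₀ hlog, one_mul]
    have := Real.log_le_sub_one_of_pos (show (0 : ℝ) < g by linarith)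
    linarith
  have htle : (t : ℝ) ≤ (C + 1) * ((g : ℝ) / Real.log g) := by
    have h3 : (t : ℝ) < C * ((g : ℝ) / Real.log g) + 1 := Nat.ceil_lt_add_one (by positivity)
    linarith
  set T := 1000037 ^ (6 * g) with hT
  have hmain := vv2_core (s := s) (s' := s') (p := p) (a := g') (Q := Q) (I := p ^ (g' / 2))
    (by omega) hp ha hQ hQ0 hI (vlo_pos s) h2 K hK hK' t 100 (by norm_num)
    (2 * Real.exp (-(6 * (g' : ℝ)))) (by rw [hs']; exact mu_small c) T
    (by
      have h3 := size_T c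
      rw [hs, hs']
      exact h3)
  refine prLe_mono hmain ?_ ?_
  · rintro w ⟨α, E, κ, n1, hE, hκ, hbig⟩
    rw [esl'] at hE
    refine ⟨α, E, κ, n1, hE, hκ, ?_⟩
    rw [ecnt, esl', esl, ese, esg, Nj_div_tau] at hbig
    have h3 : ((2 * 100 + 1) * t : ℕ) ≤ 201 * (C + 1) * ((g : ℝ) / Real.log g) := by
      push_cast
      nlinarith
    have h4 := lt_of_le_of_lt h3 hbig
    have h5 : (2 * 100 + 1) * t < _ := Nat.cast_lt.1 h4
    refine lt_of_lt_of_le h5 (le_of_eq ?_)
    unfold hits3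
    congr 1
    refine Finset.filter_congr fun x _ => ?_
    exact eq_comm
  · -- the probability
    have hTe : (T : ℝ) ≤ Real.exp (84 * g) := by
      rw [hT]
      push_cast
      refine (pow_le_exp _).trans (Real.exp_le_exp.2 (le_of_eq ?_))
      push_cast
      ring
    have hT0 : (0 : ℝ) ≤ T := Nat.cast_nonneg _
    have hsq := sqrt_sl_le s
    rw [esg] at hsq
    have hfin : Real.exp (-(g : ℝ)) ≤ Real.exp (-(Real.sqrt (sl s))) :=
      Real.exp_le_exp.2 (by linarith)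
    refine le_trans ?_ hfin
    have e4 : (4 : ℝ) ≤ Real.exp g := by
      have := Real.add_one_le_exp (g : ℝ)
      have h40 : (4 : ℝ) ≤ 2 ^ 41 := by norm_num
      linarith
    have eneg : Real.exp (-(g : ℝ)) * Real.exp (g : ℝ) = 1 := by
      rw [← Real.exp_add]
      simp
    -- first part
    have p1 : 2 * (T : ℝ) ^ 3 * (16 ^ t / (t.factorial : ℝ)) ≤ Real.exp (-(g : ℝ)) / 2 := by
      have h3 : (T : ℝ) ^ 3 ≤ Real.exp (252 * g) := by
        calc (T : ℝ) ^ 3 ≤ Real.exp (84 * g) ^ 3 := pow_le_pow_left₀ hT0 hTe 3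
          _ = Real.exp (252 * g) := by
            rw [← Real.exp_nat_mul]
            congr 1
            push_cast
            ring
      have h4 : Real.exp (252 * g) * Real.exp (-(260 * (g : ℝ))) ≤
          Real.exp (-(g : ℝ)) * Real.exp (-(g : ℝ)) := by
        rw [← Real.exp_add, ← Real.exp_add]
        apply Real.exp_le_exp.2
        linarith
      have h5 : Real.exp (-(g : ℝ)) ≤ 1 / 4 := by
        rw [le_div_iff₀ (by norm_num)]
        calc Real.exp (-(g : ℝ)) * 4 ≤ Real.exp (-(g : ℝ)) * Real.exp g :=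
              mul_le_mul_of_nonneg_left e4 (Real.exp_pos _).le
          _ = 1 := eneg
      calc 2 * (T : ℝ) ^ 3 * (16 ^ t / (t.factorial : ℝ))
          ≤ 2 * Real.exp (252 * g) * Real.exp (-(260 * (g : ℝ))) := by
            refine mul_le_mul ?_ htl (by positivity) (by positivity)
            linarith
        _ = 2 * (Real.exp (252 * g) * Real.exp (-(260 * (g : ℝ)))) := by ring
        _ ≤ 2 * (Real.exp (-(g : ℝ)) * Real.exp (-(g : ℝ))) := by linarith
        _ ≤ 2 * (Real.exp (-(g : ℝ)) * (1 / 4)) := by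
            have := mul_le_mul_of_nonneg_left h5 (Real.exp_pos (-(g : ℝ))).le
            linarith
        _ = Real.exp (-(g : ℝ)) / 2 := by ring
    have p2 : 2 * (T : ℝ) ^ 4 * ((2 * Real.exp (-(6 * (g' : ℝ)))) ^ 100 /
        ((100 : ℕ).factorial : ℝ)) ≤ Real.exp (-(g : ℝ)) / 2 := by
      have h3 : (T : ℝ) ^ 4 ≤ Real.exp (336 * g) := by
        calc (T : ℝ) ^ 4 ≤ Real.exp (84 * g) ^ 4 := pow_le_pow_left₀ hT0 hTe 4
          _ = Real.exp (336 * g) := by
            rw [← Real.exp_nat_mul]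
            congr 1
            push_cast
            ring
      have hgg' : 4 * (g : ℝ) ≤ 5 * g' := by exact_mod_cast hgg.2
      have h2e : (2 : ℝ) ^ 100 ≤ Real.exp g := by
        have h6 : (2 : ℝ) ≤ Real.exp 1 := by
          have := Real.add_one_le_exp (1 : ℝ)
          linarith
        have h7 : Real.exp 1 ^ 100 = Real.exp 100 := by
          rw [← Real.exp_nat_mul]
          norm_num
        calc (2 : ℝ) ^ 100 ≤ Real.exp 1 ^ 100 := pow_le_pow_left₀ (by norm_num) h6 _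
          _ = Real.exp 100 := h7
          _ ≤ Real.exp g := by
            apply Real.exp_le_exp.2
            have h100 : (100 : ℝ) ≤ 2 ^ 41 := by norm_num
            linarith
      have h4 : (2 * Real.exp (-(6 * (g' : ℝ)))) ^ 100 ≤ Real.exp g * Real.exp (-(480 * (g : ℝ))) := by
        rw [mul_pow]
        refine mul_le_mul h2e ?_ (by positivity) (by positivity)
        rw [← Real.exp_nat_mul]
        apply Real.exp_le_exp.2
        push_cast
        linarith
      have h5 : (2 * Real.exp (-(6 * (g' : ℝ)))) ^ 100 / ((100 : ℕ).factorial : ℝ) ≤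
          Real.exp g * Real.exp (-(480 * (g : ℝ))) := by
        refine (div_le_self (by positivity) ?_).trans h4
        exact_mod_cast Nat.succ_le_of_lt (Nat.factorial_pos 100)
      have h6 : Real.exp (336 * g) * (Real.exp g * Real.exp (-(480 * (g : ℝ)))) ≤
          Real.exp (-(g : ℝ)) * Real.exp (-(g : ℝ)) := by
        rw [← Real.exp_add, ← Real.exp_add, ← Real.exp_add]
        apply Real.exp_le_exp.2
        linarith
      have h7 : Real.exp (-(g : ℝ)) ≤ 1 / 4 := by
        rw [le_div_iff₀ (by norm_num)]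
        calc Real.exp (-(g : ℝ)) * 4 ≤ Real.exp (-(g : ℝ)) * Real.exp g :=
              mul_le_mul_of_nonneg_left e4 (Real.exp_pos _).le
          _ = 1 := eneg
      calc 2 * (T : ℝ) ^ 4 * ((2 * Real.exp (-(6 * (g' : ℝ)))) ^ 100 / ((100 : ℕ).factorial : ℝ))
          ≤ 2 * Real.exp (336 * g) * (Real.exp g * Real.exp (-(480 * (g : ℝ)))) := by
            refine mul_le_mul ?_ h5 (by positivity) (by positivity)
            linarith
        _ = 2 * (Real.exp (336 * g) * (Real.exp g * Real.exp (-(480 * (g : ℝ))))) := by ring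
        _ ≤ 2 * (Real.exp (-(g : ℝ)) * Real.exp (-(g : ℝ))) := by linarith
        _ ≤ 2 * (Real.exp (-(g : ℝ)) * (1 / 4)) := by
            have := mul_le_mul_of_nonneg_left h7 (Real.exp_pos (-(g : ℝ))).le
            linarith
        _ = Real.exp (-(g : ℝ)) / 2 := by ring
    linarith

end Pool.Agent.Helper57.T4
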