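import Mathlib

/-!
# Numerical lemmas for the window sets
-/

set_option autoImplicit false

namespace Pool.Agent.Helper57.T4

open Finset

/-- the weight of `v`: the probability that the block of `v` chooses `v` -/
noncomputable def wl (v : ℕ) : ℝ := ((2 : ℝ) ^ Nat.log 4 v)⁻¹

theorem wl_pos (v : ℕ) : 0 < wl v := by
  unfold wl
  positivity

theorem wl_le (v : ℕ) (hv : 1 ≤ v) : wl v ≤ 2 / Real.sqrt v := by
  have h1 : v < 4 ^ (Nat.log 4 v + 1) := Nat.lt_pow_succ_log_self (by norm_num) v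
  have h2 : (v : ℝ) ≤ (2 * 2 ^ Nat.log 4 v) ^ 2 := by
    have h3 : (v : ℝ) ≤ (4 : ℝ) ^ (Nat.log 4 v + 1) := by exact_mod_cast h1.le
    refine h3.trans (le_of_eq ?_)
    have h4 : (4 : ℝ) = 2 ^ 2 := by norm_num
    rw [h4, ← pow_mul, mul_comm 2 (_ + 1), pow_mul, pow_succ]
    ring
  have h5 : Real.sqrt v ≤ 2 * 2 ^ Nat.log 4 v :=
    Real.sqrt_le_iff.2 ⟨by positivity, h2⟩
  have h6 : 0 < Real.sqrt v := Real.sqrt_pos.2 (by exact_mod_cast hv)
  unfold wl
  rw [inv_le_comm₀ (by positivity) (by positivity)]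
  rw [inv_div, div_le_iff₀ (by norm_num)]
  linarith

theorem sum_inv_sqrt_le (n : ℕ) : ∑ j ∈ Finset.Icc 1 n, 1 / Real.sqrt j ≤ 2 * Real.sqrt n := by
  induction n with
  | zero => simp
  | succ n ih =>
    rw [Finset.sum_Icc_succ_top (by omega)]
    have h1 : 0 ≤ Real.sqrt n := Real.sqrt_nonneg _
    have h2 : 0 < Real.sqrt ((n + 1 : ℕ) : ℝ) := Real.sqrt_pos.2 (by positivity)
    have h3 : Real.sqrt n ^ 2 = n := Real.sq_sqrt (Nat.cast_nonneg _)
    have h4 : Real.sqrt ((n + 1 : ℕ) : ℝ) ^ 2 = n + 1 := by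
      rw [Real.sq_sqrt (Nat.cast_nonneg _)]
      push_cast
      ring
    have h5 : 1 / Real.sqrt ((n + 1 : ℕ) : ℝ) ≤ 2 * Real.sqrt ((n + 1 : ℕ) : ℝ) - 2 * Real.sqrt n := by
      rw [div_le_iff₀ h2]
      nlinarith [sq_nonneg (Real.sqrt ((n + 1 : ℕ) : ℝ) - Real.sqrt n)]
    linarith

theorem inv_sqrt_mul_le (a b : ℝ) (ha : 0 < a) (hb : 0 < b) :
    1 / Real.sqrt (a * b) ≤ (1 / Real.sqrt a + 1 / Real.sqrt b) / Real.sqrt (a + b) := by
  have h1 := Real.sqrt_pos.2 ha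
  have h2 := Real.sqrt_pos.2 hb
  have h3 := Real.sqrt_pos.2 (add_pos ha hb)
  rw [Real.sqrt_mul ha.le]
  rw [div_add_div _ _ h1.ne' h2.ne', div_div, div_le_div_iff₀ (by positivity) (by positivity)]
  have h4 : Real.sqrt (a + b) ≤ Real.sqrt a + Real.sqrt b := by
    refine Real.sqrt_le_iff.2 ⟨by positivity, ?_⟩
    have e1 := Real.sq_sqrt ha.le
    have e2 := Real.sq_sqrt hb.le
    nlinarith [mul_pos h1 h2]
  nlinarith [mul_pos h1 h2, mul_le_mul_of_nonneg_left h4 (mul_pos h1 h2).le]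

/-- sum over a line -/
theorem sum_line_le (X : ℝ) (s : Finset ℕ) (h : ∀ v ∈ s, 1 ≤ v ∧ (v : ℝ) + 1 ≤ X) :
    ∑ v ∈ s, 1 / Real.sqrt ((v : ℝ) * (X - v)) ≤ 4 := by
  rcases s.eq_empty_or_nonempty with rfl | ⟨v0, hv0⟩
  · simp
  have hX : 2 ≤ X := by
    have := h v0 hv0
    have h1 : (1 : ℝ) ≤ v0 := by exact_mod_cast this.1
    linarith [this.2]
  set N := ⌊X⌋₊ with hN
  have hNX : (N : ℝ) ≤ X := Nat.floor_le (by linarith)
  have hsub : ∀ v ∈ s, v ∈ Finset.Icc 1 (N - 1) ∧ v + 1 ≤ N := by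
    intro v hv
    have h1 := h v hv
    have h2 : v + 1 ≤ N := Nat.le_floor (by push_cast; exact h1.2)
    exact ⟨Finset.mem_Icc.2 ⟨h1.1, by omega⟩, h2⟩
  have hsX := Real.sqrt_pos.2 (show (0 : ℝ) < X by linarith)
  have h1 : ∀ v ∈ s, 1 / Real.sqrt ((v : ℝ) * (X - v)) ≤
      (1 / Real.sqrt v + 1 / Real.sqrt ((N - v : ℕ) : ℝ)) / Real.sqrt X := by
    intro v hv
    have h2 := h v hv
    have h3 : (1 : ℝ) ≤ v := by exact_mod_cast h2.1
    have h4 := inv_sqrt_mul_le v (X - v) (by linarith) (by linarith [h2.2])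
    rw [add_sub_cancel] at h4
    refine h4.trans ?_
    have h5 : ((N - v : ℕ) : ℝ) ≤ X - v := by
      rw [Nat.cast_sub (by have := (hsub v hv).2; omega)]
      linarith
    have h6 : (1 : ℝ) ≤ ((N - v : ℕ) : ℝ) := by
      have := (hsub v hv).2
      exact_mod_cast (show 1 ≤ N - v by omega)
    have h7 : 1 / Real.sqrt (X - v) ≤ 1 / Real.sqrt ((N - v : ℕ) : ℝ) :=
      one_div_le_one_div_of_le (Real.sqrt_pos.2 (by linarith)) (Real.sqrt_le_sqrt h5)
    gcongr
  refine (Finset.sum_le_sum h1).trans ?_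
  rw [← Finset.sum_div, Finset.sum_add_distrib, div_le_iff₀ hsX]
  have h8 : ∑ v ∈ s, 1 / Real.sqrt (v : ℝ) ≤ 2 * Real.sqrt X := by
    refine (Finset.sum_le_sum_of_subset_of_nonneg (fun v hv => (hsub v hv).1) fun v _ _ => by
      positivity).trans ?_
    refine (sum_inv_sqrt_le _).trans ?_
    gcongr
    refine le_trans ?_ hNX
    exact_mod_cast Nat.sub_le _ _
  have h9 : ∑ v ∈ s, 1 / Real.sqrt ((N - v : ℕ) : ℝ) ≤ 2 * Real.sqrt X := by
    have h10 : ∑ v ∈ s, 1 / Real.sqrt ((N - v : ℕ) : ℝ) =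
        ∑ u ∈ s.image fun v => N - v, 1 / Real.sqrt (u : ℝ) := by
      rw [Finset.sum_image]
      intro a ha b hb hab
      have h11 := (hsub a ha).2
      have h12 := (hsub b hb).2
      simp only at hab
      omega
    rw [h10]
    refine (Finset.sum_le_sum_of_subset_of_nonneg (t := Finset.Icc 1 N) ?_ fun v _ _ => by
      positivity).trans ?_
    · intro u hu
      obtain ⟨v, hv, rfl⟩ := Finset.mem_image.1 hu
      have h11 := (hsub v hv).2
      exact Finset.mem_Icc.2 ⟨by omega, by omega⟩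
    · refine (sum_inv_sqrt_le _).trans ?_
      gcongr
  linarith

/-- the number of disjoint pairs -/
theorem tail_num (μ B : ℝ) (hμ : 0 < μ) (hB : 0 ≤ B) : ∃ C : ℝ, 0 < C ∧ ∃ g0 : ℝ, ∀ g : ℝ, g0 ≤ g →
    ∀ t : ℕ, C * (g / Real.log g) ≤ t → μ ^ t / (t.factorial : ℝ) ≤ Real.exp (-(B * g)) := by
  refine ⟨4 * (B + 1), by linarith, max (Real.exp 1) (μ ^ 4), fun g hg t ht => ?_⟩
  have hg1 : Real.exp 1 ≤ g := (le_max_left _ _).trans hg
  have hg2 : μ ^ 4 ≤ g := (le_max_right _ _).trans hg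
  have hg3 : 2 < g := lt_of_lt_of_le (by have := Real.exp_one_gt_d9; linarith) hg1
  have hlog : 1 ≤ Real.log g := (Real.le_log_iff_exp_le (by linarith)).2 hg1
  have hlμ : 4 * Real.log μ ≤ Real.log g := by
    have h1 := Real.log_le_log (by positivity) hg2
    rw [Real.log_pow] at h1
    exact_mod_cast h1
  set x := Real.sqrt g with hx
  have hx1 : 0 < x := Real.sqrt_pos.2 (by linarith)
  have hxg : x ≤ g := by
    rw [hx]
    refine Real.sqrt_le_iff.2 ⟨by linarith, by nlinarith⟩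
  have h1 : x ^ t / (t.factorial : ℝ) ≤ Real.exp x := Real.pow_div_factorial_le_exp x hx1.le t
  have h2 : μ ^ t / (t.factorial : ℝ) = (μ / x) ^ t * (x ^ t / (t.factorial : ℝ)) := by
    rw [div_pow]
    field_simp
  have h3 : (μ / x) ^ t = Real.exp (t * (Real.log μ - Real.log g / 2)) := by
    rw [← Real.exp_log (show 0 < (μ / x) ^ t by positivity), Real.log_pow,
      Real.log_div hμ.ne' hx1.ne', hx, Real.log_sqrt (by linarith)]
  have hgl : 0 < g / Real.log g := div_pos (by linarith) (by linarith)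
  calc μ ^ t / (t.factorial : ℝ) ≤ (μ / x) ^ t * Real.exp x := by
        rw [h2]
        exact mul_le_mul_of_nonneg_left h1 (by positivity)
    _ = Real.exp (t * (Real.log μ - Real.log g / 2) + x) := by rw [h3, ← Real.exp_add]
    _ ≤ Real.exp (-(B * g)) := by
        apply Real.exp_le_exp.2
        have h4 : (t : ℝ) * (Real.log μ - Real.log g / 2) ≤ t * (-(Real.log g / 4)) :=
          mul_le_mul_of_nonneg_left (by linarith) (Nat.cast_nonneg _)
        have h5 : 4 * (B + 1) * g ≤ t * Real.log g := by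
          have h6 := mul_le_mul_of_nonneg_right ht (show 0 ≤ Real.log g by linarith)
          have h7 : 4 * (B + 1) * (g / Real.log g) * Real.log g = 4 * (B + 1) * g := by
            field_simp
          linarith
        linarith

end Pool.Agent.Helper57.T4
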