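import Pool.Agent.Helper57.T4.Num
import Pool.Agent.Helper1.ET4.VV

/-!
# The window sets of two adjacent states with different `l`
-/

set_option autoImplicit false

namespace Pool.Agent.Helper57.T4

open Finset Pool.Agent.Helper5.ET Pool.Agent.Helper1.ET4

/-- the hits `(i, v, v')` of the second near case, for windows `V`, `V'` -/
def hits3 (V V' : Finset ℕ) (I q Q α E κ n1 : ℕ) : Finset (ℕ × ℕ × ℕ) :=
  (range I ×ˢ V ×ˢ V').filter
    (fun x => n1 = (α + E * x.1) % Q + κ * Q + q * x.2.1 + x.2.2)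

theorem mem_hits3 {V V' : Finset ℕ} {I q Q α E κ n1 : ℕ} {x : ℕ × ℕ × ℕ} :
    x ∈ hits3 V V' I q Q α E κ n1 ↔ (x.1 < I ∧ x.2.1 ∈ V ∧ x.2.2 ∈ V') ∧
      n1 = (α + E * x.1) % Q + κ * Q + q * x.2.1 + x.2.2 := by
  unfold hits3
  rw [Finset.mem_filter, Finset.mem_product, Finset.mem_product, Finset.mem_range]

theorem hits3_mod (V V' : Finset ℕ) (I q Q α E κ n1 : ℕ) :
    hits3 V V' I q Q (α % Q) (E % Q) κ n1 = hits3 V V' I q Q α E κ n1 := by
  unfold hits3
  refine Finset.filter_congr fun x _ => ?_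
  have h1 : (α % Q + E % Q * x.1) % Q = (α + E * x.1) % Q := by
    rw [Nat.add_mod, Nat.mod_mod, Nat.mul_mod, Nat.mod_mod, ← Nat.mul_mod, ← Nat.add_mod]
  rw [h1]

/-- the label is determined by `v'` modulo `q` -/
theorem label_unique {p a Q I α E κ n1 : ℕ} (hQ : p ^ a ∣ Q) (hI : I ≤ p ^ a)
    (hE : E.Coprime p) {i j v u v' : ℕ} (hi : i < I) (hj : j < I)
    (h1 : n1 = (α + E * i) % Q + κ * Q + p ^ a * v + v')
    (h2 : n1 = (α + E * j) % Q + κ * Q + p ^ a * u + v') : i = j := by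
  have hmod : ∀ k w : ℕ, (α + E * k) % Q + κ * Q + p ^ a * w + v' ≡ α + E * k + v' [MOD p ^ a] := by
    intro k w
    have e1 : (α + E * k) % Q ≡ α + E * k [MOD p ^ a] := (Nat.mod_modEq _ _).of_dvd hQ
    have e2 : κ * Q ≡ 0 [MOD p ^ a] := (Nat.modEq_zero_iff_dvd).2 (hQ.mul_left _)
    have e3 : p ^ a * w ≡ 0 [MOD p ^ a] := (Nat.modEq_zero_iff_dvd).2 (dvd_mul_right _ _)
    have := ((e1.add e2).add e3).add_right v'
    simpa using this
  have h3 : α + E * i + v' ≡ α + E * j + v' [MOD p ^ a] :=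
    (hmod i v).symm.trans ((h1.symm.trans h2 ▸ Nat.ModEq.refl _ : _ ≡ _ [MOD p ^ a]).trans (hmod j u))
  have h4 : E * i ≡ E * j [MOD p ^ a] := by
    have h5 := Nat.ModEq.add_right_cancel' v' h3
    exact Nat.ModEq.add_left_cancel' α h5
  have h5 : i ≡ j [MOD p ^ a] :=
    Nat.ModEq.cancel_left_of_coprime (Nat.Coprime.pow_left a hE.symm) h4
  exact Nat.ModEq.eq_of_lt_of_lt h5 (hi.trans_le hI) (hj.trans_le hI)

/-- all possible hits -/
def edges (s s' I q Q α E κ n1 : ℕ) : Finset (ℕ × ℕ × ℕ) :=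
  hits3 (Ico (vlo s) (vhi s)) (Ico (vlo s') (vhi s')) I q Q α E κ n1

/-- the two vertices of a hit -/
def supp2 (s s' : ℕ) (x : ℕ × ℕ × ℕ) : Finset (ℕ × ℕ) := {(s, x.2.1), (s', x.2.2)}

theorem prod_supp2 {s s' : ℕ} (hss : s ≠ s') (x : ℕ × ℕ × ℕ) :
    ∏ q ∈ supp2 s s' x, ((2 : ℝ) ^ lev q.2)⁻¹ = wl x.2.1 * wl x.2.2 := by
  unfold supp2
  rw [Finset.prod_pair]
  · rfl
  · intro h
    exact hss (congrArg Prod.fst h)

/-- the mean for one label -/
theorem mean_one (q M : ℕ) (hq : 0 < q) (s : Finset ℕ) (h : ∀ v ∈ s, 1 ≤ v ∧ q * v + q ≤ M) :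
    ∑ v ∈ s, wl v * wl (M - q * v) ≤ 16 / Real.sqrt q := by
  have hq' : (0 : ℝ) < q := by exact_mod_cast hq
  have h1 : ∀ v ∈ s, wl v * wl (M - q * v) ≤
      4 / Real.sqrt q * (1 / Real.sqrt ((v : ℝ) * ((M : ℝ) / q - v))) := by
    intro v hv
    obtain ⟨h2, h3⟩ := h v hv
    have h4 : 1 ≤ M - q * v := by omega
    have h5 := wl_le v h2
    have h6 := wl_le (M - q * v) h4
    have h7 : (0 : ℝ) < v := by exact_mod_cast h2
    have h8 : ((M - q * v : ℕ) : ℝ) = q * ((M : ℝ) / q - v) := by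
      rw [Nat.cast_sub (by omega)]
      push_cast
      field_simp
    have h9 : 0 < (M : ℝ) / q - v := by
      have : (0 : ℝ) < ((M - q * v : ℕ) : ℝ) := by exact_mod_cast h4
      rw [h8] at this
      exact (mul_pos_iff_of_pos_left hq').1 this
    refine (mul_le_mul h5 h6 (wl_pos _).le (by positivity)).trans (le_of_eq ?_)
    rw [h8, Real.sqrt_mul hq'.le, Real.sqrt_mul h7.le]
    field_simp
    norm_num
  refine (Finset.sum_le_sum h1).trans ?_
  rw [← Finset.mul_sum]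
  have h2 := sum_line_le ((M : ℝ) / q) s fun v hv => by
    obtain ⟨h2, h3⟩ := h v hv
    refine ⟨h2, ?_⟩
    rw [le_div_iff₀ hq']
    have h4 : ((q * v + q : ℕ) : ℝ) ≤ M := by exact_mod_cast h3
    push_cast at h4
    linarith
  have h3 : (0 : ℝ) ≤ 4 / Real.sqrt q := by positivity
  calc 4 / Real.sqrt q * ∑ v ∈ s, 1 / Real.sqrt ((v : ℝ) * ((M : ℝ) / q - v))
      ≤ 4 / Real.sqrt q * 4 := mul_le_mul_of_nonneg_left h2 h3
    _ = 16 / Real.sqrt q := by ring

/-- the mean number of hits -/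
theorem mean_edges (s s' I q Q α E κ n1 : ℕ) (hss : s ≠ s') (hq : 0 < q) (hI : I ^ 2 ≤ q)
    (h1 : 1 ≤ vlo s) (h2 : q ≤ vlo s') :
    ∑ e ∈ edges s s' I q Q α E κ n1, ∏ x ∈ supp2 s s' e, ((2 : ℝ) ^ lev x.2)⁻¹ ≤ 16 := by
  classical
  rw [Finset.sum_congr rfl fun e _ => prod_supp2 hss e]
  -- fibres over the label
  have hfib : ∑ e ∈ edges s s' I q Q α E κ n1, wl e.2.1 * wl e.2.2 =
      ∑ i ∈ range I, ∑ e ∈ (edges s s' I q Q α E κ n1).filter (fun e => e.1 = i),
        wl e.2.1 * wl e.2.2 := by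
    rw [Finset.sum_fiberwise_of_maps_to]
    intro e he
    exact Finset.mem_range.2 (mem_hits3.1 he).1.1
  rw [hfib]
  have hone : ∀ i ∈ range I, ∑ e ∈ (edges s s' I q Q α E κ n1).filter (fun e => e.1 = i),
        wl e.2.1 * wl e.2.2 ≤ 16 / Real.sqrt q := by
    intro i _
    set F := (edges s s' I q Q α E κ n1).filter (fun e => e.1 = i) with hF
    set M := n1 - (α + E * i) % Q - κ * Q with hM
    have hmem : ∀ e ∈ F, e.1 = i ∧ vlo s ≤ e.2.1 ∧ vlo s' ≤ e.2.2 ∧
        n1 = (α + E * i) % Q + κ * Q + q * e.2.1 + e.2.2 := by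
      intro e he
      rw [hF, Finset.mem_filter] at he
      have h3 := mem_hits3.1 he.1
      rw [he.2] at h3
      exact ⟨he.2, (Finset.mem_Ico.1 h3.1.2.1).1, (Finset.mem_Ico.1 h3.1.2.2).1, h3.2⟩
    have h4 : ∀ e ∈ F, e.2.2 = M - q * e.2.1 ∧ q * e.2.1 + q ≤ M := by
      intro e he
      obtain ⟨_, _, h6, h7⟩ := hmem e he
      constructor <;> omega
    have h5 : ∑ e ∈ F, wl e.2.1 * wl e.2.2 = ∑ v ∈ F.image (fun e => e.2.1),
        wl v * wl (M - q * v) := by
      rw [Finset.sum_image]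
      · exact Finset.sum_congr rfl fun e he => by rw [← (h4 e he).1]
      · intro e he e' he' hee
        have h6 := hmem e he
        have h7 := hmem e' he'
        have h8 := (h4 e he).1
        have h9 := (h4 e' he').1
        simp only at hee
        refine Prod.ext (h6.1.trans h7.1.symm) (Prod.ext hee ?_)
        rw [h8, h9, hee]
    rw [h5]
    refine mean_one q M hq _ ?_
    intro v hv
    obtain ⟨e, he, rfl⟩ := Finset.mem_image.1 hv
    have h6 := hmem e he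
    exact ⟨h1.trans h6.2.1, (h4 e he).2⟩
  refine (Finset.sum_le_sum hone).trans ?_
  rw [Finset.sum_const, Finset.card_range, nsmul_eq_mul]
  have hq' : (0 : ℝ) < Real.sqrt q := Real.sqrt_pos.2 (by exact_mod_cast hq)
  have h3 : (I : ℝ) ≤ Real.sqrt q := by
    refine Real.le_sqrt_of_sq_le ?_
    exact_mod_cast hI
  rw [mul_div_assoc', div_le_iff₀ hq']
  nlinarith

/-- the second vertices for given `v` -/
def ends (s' I q Q α E κ n1 v : ℕ) : Finset (ℕ × ℕ) :=
  ((range I).image fun i => (s', n1 - (α + E * i) % Q - κ * Q - q * v)).filter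
    fun x => vlo s' ≤ x.2

theorem mean_ends (s' I q Q α E κ n1 v : ℕ) (h2 : 1 ≤ vlo s') :
    ∑ x ∈ ends s' I q Q α E κ n1 v, ((2 : ℝ) ^ lev x.2)⁻¹ ≤ 2 * I / Real.sqrt (vlo s') := by
  have h3 : ∀ x ∈ ends s' I q Q α E κ n1 v, ((2 : ℝ) ^ lev x.2)⁻¹ ≤ 2 / Real.sqrt (vlo s') := by
    intro x hx
    have h4 := (Finset.mem_filter.1 hx).2
    refine (wl_le x.2 (h2.trans h4)).trans ?_
    have h5 : (0 : ℝ) < Real.sqrt (vlo s') := Real.sqrt_pos.2 (by exact_mod_cast h2)
    have h6 : Real.sqrt (vlo s') ≤ Real.sqrt x.2 := Real.sqrt_le_sqrt (by exact_mod_cast h4)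
    gcongr
  refine (Finset.sum_le_card_nsmul _ _ _ h3).trans ?_
  rw [nsmul_eq_mul]
  have h4 : ((ends s' I q Q α E κ n1 v).card : ℝ) ≤ I := by
    have h5 : (ends s' I q Q α E κ n1 v).card ≤ I := by
      refine (Finset.card_filter_le _ _).trans (Finset.card_image_le.trans ?_)
      rw [Finset.card_range]
    exact_mod_cast h5
  have h5 : (0 : ℝ) ≤ 2 / Real.sqrt (vlo s') := by positivity
  calc _ ≤ (I : ℝ) * (2 / Real.sqrt (vlo s')) := mul_le_mul_of_nonneg_right h4 h5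
    _ = _ := by ring

theorem VV_sub (s : ℕ) (w : Key → ℕ) {v : ℕ} (hv : v ∈ VV s w) : vlo s ≤ v ∧ v < vhi s := by
  unfold VV at hv
  exact Finset.mem_Ico.1 (Finset.mem_filter.1 hv).1

/-- deterministic step: few disjoint hits and small degrees give few hits -/
theorem hits3_card_le {s s' p a Q I α E κ n1 : ℕ} (hss : s ≠ s') (hp : p.Prime) (hQ : p ^ a ∣ Q)
    (hI : I ≤ p ^ a) (hE : E.Coprime p) (w : Key → ℕ) (t t0 : ℕ) (ht0 : 1 ≤ t0)
    (hB1 : ∀ v, v < vhi s → ¬ ∃ M ⊆ ends s' I (p ^ a) Q α E κ n1 v, M.card = t0 ∧ ∀ q ∈ M, inV w q)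
    (hB2 : ¬ ∃ M ⊆ edges s s' I (p ^ a) Q α E κ n1, M.card = t ∧
      (M : Set (ℕ × ℕ × ℕ)).PairwiseDisjoint (supp2 s s') ∧ ∀ e ∈ M, ∀ q ∈ supp2 s s' e, inV w q) :
    (hits3 (VV s w) (VV s' w) I (p ^ a) Q α E κ n1).card ≤ (2 * t0 + 1) * t := by
  classical
  set H := hits3 (VV s w) (VV s' w) I (p ^ a) Q α E κ n1 with hH
  have hHE : H ⊆ edges s s' I (p ^ a) Q α E κ n1 := by
    intro e he
    have h1 := mem_hits3.1 he
    have h2 := VV_sub s w h1.1.2.1
    have h3 := VV_sub s' w h1.1.2.2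
    exact mem_hits3.2 ⟨⟨h1.1.1, Finset.mem_Ico.2 h2, Finset.mem_Ico.2 h3⟩, h1.2⟩
  have hinj : ∀ e ∈ H, ∀ f ∈ H, e.2.2 = f.2.2 → e = f := by
    intro e he f hf hef
    have h1 := mem_hits3.1 he
    have h2 := mem_hits3.1 hf
    have h3 : e.1 = f.1 := by
      have h4 := h1.2
      rw [hef] at h4
      exact label_unique hQ hI hE h1.1.1 h2.1.1 h4 h2.2
    have h4 : e.2.1 = f.2.1 := by
      have h5 := h1.2
      have h6 := h2.2
      rw [h3, hef] at h5
      have h7 : p ^ a * e.2.1 = p ^ a * f.2.1 := by omega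
      exact Nat.eq_of_mul_eq_mul_left (Nat.pow_pos hp.pos) h7
    exact Prod.ext h3 (Prod.ext h4 hef)
  refine card_edges_le H (supp2 s s') 2 t0 t ?_ ?_ ?_
  · intro e _
    exact Finset.card_le_two
  · intro e he x hx
    unfold supp2 at hx
    rw [Finset.mem_insert, Finset.mem_singleton] at hx
    rcases hx with rfl | rfl
    · -- the vertex of `V`
      by_contra hcon
      push Not at hcon
      set F := H.filter fun f => (s, e.2.1) ∈ supp2 s s' f with hF
      have hFm : ∀ f ∈ F, f ∈ H ∧ f.2.1 = e.2.1 := by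
        intro f hf
        obtain ⟨h1, h2⟩ := Finset.mem_filter.1 hf
        refine ⟨h1, ?_⟩
        unfold supp2 at h2
        rw [Finset.mem_insert, Finset.mem_singleton] at h2
        rcases h2 with h2 | h2
        · exact (congrArg Prod.snd h2).symm
        · exact absurd (congrArg Prod.fst h2) hss
      have hv := VV_sub s w (mem_hits3.1 he).1.2.1
      have hcard : t0 ≤ (F.image fun f => (s', f.2.2)).card := by
        rw [Finset.card_image_of_injOn]
        · exact hcon.le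
        · intro f hf f' hf' hff
          have h0 : ((s', f.2.2) : ℕ × ℕ) = (s', f'.2.2) := hff
          have h1 : f.2.2 = f'.2.2 := (Prod.ext_iff.1 h0).2
          exact hinj f (hFm f hf).1 f' (hFm f' hf').1 h1
      obtain ⟨M, hM, hMt⟩ := Finset.exists_subset_card_eq hcard
      refine hB1 e.2.1 hv.2 ⟨M, ?_, hMt, ?_⟩
      · intro x hx
        obtain ⟨f, hf, rfl⟩ := Finset.mem_image.1 (hM hx)
        obtain ⟨h1, h2⟩ := hFm f hf
        have h3 := mem_hits3.1 h1
        unfold ends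
        refine Finset.mem_filter.2 ⟨Finset.mem_image.2 ⟨f.1, Finset.mem_range.2 h3.1.1, ?_⟩,
          (VV_sub s' w h3.1.2.2).1⟩
        have h4 := h3.2
        rw [h2] at h4
        refine Prod.ext rfl ?_
        simp only
        omega
      · intro x hx
        obtain ⟨f, hf, rfl⟩ := Finset.mem_image.1 (hM hx)
        exact (mem_hits3.1 (hFm f hf).1).1.2.2
    · -- the vertex of `V'`
      refine le_trans ?_ ht0
      rw [Finset.card_le_one]
      intro f hf f' hf'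
      have key : ∀ f ∈ H.filter (fun f => (s', e.2.2) ∈ supp2 s s' f), f ∈ H ∧ f.2.2 = e.2.2 := by
        intro f hf
        obtain ⟨h1, h2⟩ := Finset.mem_filter.1 hf
        refine ⟨h1, ?_⟩
        unfold supp2 at h2
        rw [Finset.mem_insert, Finset.mem_singleton] at h2
        rcases h2 with h2 | h2
        · exact absurd (congrArg Prod.fst h2).symm hss
        · exact (congrArg Prod.snd h2).symm
      obtain ⟨h1, h2⟩ := key f hf
      obtain ⟨h3, h4⟩ := key f' hf'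
      exact hinj f h1 f' h3 (h2.trans h4.symm)
  · rintro ⟨M, hM, hMt, hMd⟩
    refine hB2 ⟨M, hM.trans hHE, hMt, hMd, ?_⟩
    intro e he x hx
    have h1 := mem_hits3.1 (hM he)
    unfold supp2 at hx
    rw [Finset.mem_insert, Finset.mem_singleton] at hx
    rcases hx with rfl | rfl
    · exact h1.1.2.1
    · exact h1.1.2.2

/-- union bound over all contexts -/
theorem vv2_core {s s' p a Q I : ℕ} (hss : s ≠ s') (hp : p.Prime) (ha : 1 ≤ a) (hQ : p ^ a ∣ Q)
    (hQ0 : 0 < Q) (hI : I ^ 2 ≤ p ^ a) (h1 : 1 ≤ vlo s) (h2 : p ^ a ≤ vlo s') (K : Finset Key)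
    (hK : keysOf s ⊆ K) (hK' : keysOf s' ⊆ K) (t t0 : ℕ) (ht0 : 1 ≤ t0) (μ1 : ℝ)
    (hμ1 : 2 * I / Real.sqrt (vlo s') ≤ μ1) (T : ℕ) (hT : 2 * Q + p ^ a * vhi s + vhi s' ≤ T) :
    PrLe K (fun w => ∃ α E κ n1, E.Coprime p ∧ κ ≤ 1 ∧
      (2 * t0 + 1) * t < (hits3 (VV s w) (VV s' w) I (p ^ a) Q α E κ n1).card)
      (2 * (T : ℝ) ^ 3 * (16 ^ t / (t.factorial : ℝ)) +
        2 * (T : ℝ) ^ 4 * (μ1 ^ t0 / (t0.factorial : ℝ))) := by
  classical
  have hpa : 0 < p ^ a := Nat.pow_pos hp.pos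
  have hI' : I ≤ p ^ a := le_trans (by nlinarith [Nat.zero_le I]) hI
  have hμ1' : 0 ≤ μ1 := le_trans (by positivity) hμ1
  set J := range Q ×ˢ range Q ×ˢ range 2 ×ˢ range T with hJ
  have hJc : (J.card : ℝ) ≤ 2 * (T : ℝ) ^ 3 := by
    have h3 : J.card = Q * (Q * (2 * T)) := by
      rw [hJ, Finset.card_product, Finset.card_product, Finset.card_product, Finset.card_range,
        Finset.card_range, Finset.card_range]
    have h4 : Q ≤ T := by omega
    have h5 : J.card ≤ 2 * T ^ 3 := by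
      rw [h3]
      calc Q * (Q * (2 * T)) ≤ T * (T * (2 * T)) := by gcongr
        _ = 2 * T ^ 3 := by ring
    exact_mod_cast h5
  have hvT : vhi s ≤ T := by
    have h3 : vhi s ≤ p ^ a * vhi s := Nat.le_mul_of_pos_left _ hpa
    omega
  have hmem : ∀ e : ℕ × ℕ × ℕ, ∀ q ∈ supp2 s s' e, keysOf q.1 ⊆ K := by
    intro e q hq
    unfold supp2 at hq
    rw [Finset.mem_insert, Finset.mem_singleton] at hq
    rcases hq with rfl | rfl
    · exact hK
    · exact hK'
  -- the two bad events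
  have hA := prLe_union (K := K) J (fun c w => ∃ M ⊆ edges s s' I (p ^ a) Q c.1 c.2.1 c.2.2.1
      c.2.2.2, M.card = t ∧ (M : Set (ℕ × ℕ × ℕ)).PairwiseDisjoint (supp2 s s') ∧
      ∀ e ∈ M, ∀ q ∈ supp2 s s' e, inV w q) (fun _ => 16 ^ t / (t.factorial : ℝ))
    (fun c _ => prLe_matching K _ (supp2 s s') (fun e _ => hmem e) 16
      (mean_edges s s' I (p ^ a) Q _ _ _ _ hss hpa hI h1 h2) t)
  have hB := prLe_union (K := K) (J ×ˢ range (vhi s)) (fun c w => ∃ M ⊆ ends s' I (p ^ a) Q c.1.1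
      c.1.2.1 c.1.2.2.1 c.1.2.2.2 c.2, M.card = t0 ∧ ∀ q ∈ M, inV w q)
    (fun _ => μ1 ^ t0 / (t0.factorial : ℝ))
    (fun c _ => prLe_inter K _ (fun q hq => by
      have h3 := (Finset.mem_filter.1 hq).1
      obtain ⟨i, _, rfl⟩ := Finset.mem_image.1 h3
      exact hK') μ1 ((mean_ends s' I (p ^ a) Q _ _ _ _ _ (hpa.trans_le h2)).trans hμ1) t0)
  refine prLe_mono (prLe_or hA hB) ?_ ?_
  · rintro w ⟨α, E, κ, n1, hE, hκ, hbig⟩
    by_contra hcon
    push Not at hcon
    obtain ⟨hc1, hc2⟩ := hcon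
    have hn1 : n1 < T := by
      by_contra hn
      push Not at hn
      have h3 : hits3 (VV s w) (VV s' w) I (p ^ a) Q α E κ n1 = ∅ := by
        rw [Finset.eq_empty_iff_forall_notMem]
        intro x hx
        have h4 := mem_hits3.1 hx
        have h5 := VV_sub s w h4.1.2.1
        have h6 := VV_sub s' w h4.1.2.2
        have h7 : (α + E * x.1) % Q < Q := Nat.mod_lt _ hQ0
        have h8 : κ * Q ≤ Q := by nlinarith
        have h9 : p ^ a * x.2.1 ≤ p ^ a * vhi s := Nat.mul_le_mul_left _ h5.2.le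
        omega
      rw [h3, Finset.card_empty] at hbig
      omega
    have hctx : (α % Q, E % Q, κ, n1) ∈ J := by
      rw [hJ]
      simp only [Finset.mem_product, Finset.mem_range]
      exact ⟨Nat.mod_lt _ hQ0, Nat.mod_lt _ hQ0, by omega, hn1⟩
    have hE' : (E % Q).Coprime p := by
      have h3 : E % Q ≡ E [MOD p] := (Nat.mod_modEq E Q).of_dvd ((dvd_pow_self p (by omega)).trans hQ)
      rw [Nat.Coprime, h3.gcd_eq]
      exact hE
    have h3 := hits3_card_le (α := α % Q) (E := E % Q) (κ := κ) (n1 := n1) hss hp hQ hI' hE' w t t0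
      ht0 (fun v hv => by
        rintro ⟨M, h4, h5, h6⟩
        have h7 := hc2 ((α % Q, E % Q, κ, n1), v)
          (Finset.mem_product.2 ⟨hctx, Finset.mem_range.2 hv⟩)
        obtain ⟨q, h8, h9⟩ := h7 M h4 h5
        exact h9 (h6 q h8))
      (by
        rintro ⟨M, h4, h5, h6, h7⟩
        have h8 := hc1 (α % Q, E % Q, κ, n1) hctx M h4 h5 h6
        obtain ⟨e, h9, q, h10, h11⟩ := h8
        exact h11 (h7 e h9 q h10))
    rw [hits3_mod] at h3
    omega
  · have hc : (J ×ˢ range (vhi s)).card = J.card * vhi s := by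
      rw [Finset.card_product J, Finset.card_range]
    rw [Finset.sum_const, Finset.sum_const, nsmul_eq_mul, nsmul_eq_mul, hc]
    have h3 : (0 : ℝ) ≤ 16 ^ t / (t.factorial : ℝ) := by positivity
    have h4 : (0 : ℝ) ≤ μ1 ^ t0 / (t0.factorial : ℝ) := by positivity
    refine add_le_add (mul_le_mul_of_nonneg_right hJc h3) (mul_le_mul_of_nonneg_right ?_ h4)
    push_cast
    have h5 : ((vhi s : ℕ) : ℝ) ≤ T := by exact_mod_cast hvT
    calc (J.card : ℝ) * (vhi s : ℝ) ≤ 2 * (T : ℝ) ^ 3 * T := by gcongr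
      _ = 2 * (T : ℝ) ^ 4 := by ring

end Pool.Agent.Helper57.T4
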